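import Pool.Agent.Helper15.RK.GoalsF
import Pool.Agent.Helper31.SP.KV

/-!
# Packet KFE: kernel frames exist locally
-/

open Complex Metric Set Filter Topology MeasureTheory
open scoped ContDiff ComplexConjugate ComplexOrder Manifold Matrix

namespace Pool.Agent.Helper81.RK

open Pool.Agent.Helper95.Lin Pool.Agent.Helper16.Abund Pool.Agent.Helper92.Orb
  Pool.Agent.Helper10.SP Pool.Agent.Helper95.RK Pool.Agent.Helper15.RK
open Pool.Agent.Helper31.SP (contDiffOn_det contDiffOn_adjugate)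

lemma hermi_eq {n : ℕ} (A : Matrix (Fin n) (Fin n) ℂ) (u v : Cn n) :
    hermi A u v = star v ⬝ᵥ (Aᵀ *ᵥ u) := by
  simp only [dotProduct, Matrix.mulVec, Matrix.transpose_apply, hermi, Finset.mul_sum,
    Pi.star_apply, RCLike.star_def]
  rw [Finset.sum_comm]
  refine Finset.sum_congr rfl (fun i _ => Finset.sum_congr rfl (fun j _ => ?_))
  ring

lemma smooth_hermi {n m : ℕ} {W : Set (Cn n)} {A : Cn n → Matrix (Fin m) (Fin m) ℂ}
    (hA : ∀ i j, ContDiffOn ℝ ∞ (fun x => A x i j) W) (u v : Cn m) :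
    ContDiffOn ℝ ∞ (fun x => hermi (A x) u v) W := by
  unfold hermi
  exact ContDiffOn.sum fun i _ => ContDiffOn.sum fun j _ =>
    ((hA i j).mul contDiffOn_const).mul contDiffOn_const

/-- The matrix of the form `G` on the vectors `w`. -/
def MG {n b : ℕ} (G : Matrix (Fin n) (Fin n) ℂ) (w : Fin b → Cn n) : Matrix (Fin b) (Fin b) ℂ :=
  Matrix.of fun i j => star (w j) ⬝ᵥ (G *ᵥ w i)

lemma mg_vec {n b : ℕ} (G : Matrix (Fin n) (Fin n) ℂ) (w : Fin b → Cn n) (c : Fin b → ℂ)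
    (j : Fin b) : (c ᵥ* MG G w) j = star (w j) ⬝ᵥ (G *ᵥ ∑ i, c i • w i) := by
  rw [Matrix.mulVec_sum, dotProduct_sum]
  simp only [Matrix.vecMul, dotProduct, MG, Matrix.of_apply, Matrix.mulVec_smul]
  refine Finset.sum_congr rfl fun i _ => ?_
  rw [Finset.mul_sum]
  refine Finset.sum_congr rfl fun l _ => ?_
  rw [Pi.smul_apply, smul_eq_mul]
  simp only [Matrix.mulVec, dotProduct]
  ring

lemma star_sum_dot {n b : ℕ} (w : Fin b → Cn n) (c : Fin b → ℂ) (τ : Cn n)
    (h : ∀ j, star (w j) ⬝ᵥ τ = 0) : star (∑ i, c i • w i) ⬝ᵥ τ = 0 := by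
  rw [star_sum, sum_dotProduct]
  refine Finset.sum_eq_zero fun i _ => ?_
  rw [star_smul, smul_dotProduct, h i, smul_zero]

/-- If the span of `w` meets the kernel in `0` the form is nondegenerate on the span. -/
lemma det_ne {n b : ℕ} {G : Matrix (Fin n) (Fin n) ℂ} (hG : G.PosSemidef) {w : Fin b → Cn n}
    (hlin : LinearIndependent ℂ w)
    (h0 : ∀ c : Fin b → ℂ, G *ᵥ (∑ i, c i • w i) = 0 → ∑ i, c i • w i = 0) :
    (MG G w).det ≠ 0 := by
  intro hd
  obtain ⟨c, hc, hc0⟩ := Matrix.exists_vecMul_eq_zero_iff.2 hd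
  apply hc
  have h1 : ∀ j, star (w j) ⬝ᵥ (G *ᵥ ∑ i, c i • w i) = 0 := by
    intro j
    rw [← mg_vec, hc0]
    rfl
  have h2 := (hG.dotProduct_mulVec_zero_iff _).1 (star_sum_dot w c _ h1)
  have h3 := h0 c h2
  exact funext fun i => Fintype.linearIndependent_iff.1 hlin c h3 i

/-- In the span of `w` only `0` is orthogonal to `w`. -/
lemma coef_zero {n b : ℕ} {G : Matrix (Fin n) (Fin n) ℂ} {w : Fin b → Cn n}
    (hd : (MG G w).det ≠ 0) {c : Fin b → ℂ}
    (h : ∀ j, star (w j) ⬝ᵥ (G *ᵥ ∑ i, c i • w i) = 0) : c = 0 := by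
  apply Matrix.eq_zero_of_vecMul_eq_zero hd
  funext j
  rw [mg_vec, h j]
  rfl

lemma ker_mem {b k : ℕ} {G : Matrix (Fin (b + k)) (Fin (b + k)) ℂ} {w : Fin b → Cn (b + k)}
    (hlin : LinearIndependent ℂ w) (hd : (MG G w).det ≠ 0) (S : Submodule ℂ (Cn (b + k)))
    (hS : Module.finrank ℂ S = k) (hSG : ∀ e, G *ᵥ e = 0 ↔ e ∈ S) {u : Cn (b + k)}
    (hu : ∀ j, star (w j) ⬝ᵥ (G *ᵥ u) = 0) : G *ᵥ u = 0 := by
  have hdis : Disjoint S (Submodule.span ℂ (Set.range w)) := by
    rw [Submodule.disjoint_def]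
    intro x hx hx'
    obtain ⟨c, rfl⟩ := (Submodule.mem_span_range_iff_exists_fun ℂ).1 hx'
    have h1 := (hSG _).2 hx
    have h2 : c = 0 := coef_zero hd fun j => by rw [h1, dotProduct_zero]
    rw [h2]
    simp
  have htop := Submodule.eq_top_of_disjoint S (Submodule.span ℂ (Set.range w)) (by
    rw [finrank_span_eq_card hlin, hS]
    simp
    omega) hdis
  have hm : u ∈ S ⊔ Submodule.span ℂ (Set.range w) := by rw [htop]; trivial
  obtain ⟨s, hs, y, hy, rfl⟩ := Submodule.mem_sup.1 hm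
  obtain ⟨c, rfl⟩ := (Submodule.mem_span_range_iff_exists_fun ℂ).1 hy
  have h1 := (hSG _).2 hs
  have h2 : c = 0 := coef_zero hd fun j => by
    have := hu j
    rwa [Matrix.mulVec_add, h1, zero_add] at this
  rw [Matrix.mulVec_add, h1, h2]
  simp

theorem kfe (hLMF : S_LMF) : S_KFE := by
  intro b k W hW Φ hΦ hC p hp
  obtain ⟨hsm, hherm, hlev, -⟩ := hLMF W hW Φ hΦ
  -- the kernel
  have hG : ∀ x ∈ W, ((LM Φ x)ᵀ).PosSemidef := by
    intro x hx
    refine Matrix.PosSemidef.of_dotProduct_mulVec_nonneg (hherm x hx).transpose (fun e => ?_)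
    rw [← hermi_eq, ← hlev x hx]
    exact_mod_cast (hC x hx).1 e
  have hkerx : ∀ x ∈ W, ∀ e, (LM Φ x)ᵀ *ᵥ e = 0 ↔ lev Φ x e = 0 := by
    intro x hx e
    rw [← (hG x hx).dotProduct_mulVec_zero_iff, ← hermi_eq, ← hlev x hx]
    exact_mod_cast Iff.rfl
  -- the choices at `p`
  obtain ⟨S, hS, hSp⟩ := (hC p hp).2
  obtain ⟨C, hSC⟩ := Submodule.exists_isCompl S
  have hCf : Module.finrank ℂ C = b := by
    have := Submodule.finrank_add_eq_of_isCompl hSC
    rw [hS, Module.finrank_fin_fun] at this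
    omega
  let bS : Module.Basis (Fin k) ℂ S := Module.finBasisOfFinrankEq ℂ S hS
  let bC : Module.Basis (Fin b) ℂ C := Module.finBasisOfFinrankEq ℂ C hCf
  let L : Cn (b + k) →ₗ[ℂ] Cn k := bS.equivFun.toLinearMap ∘ₗ S.projectionOnto C hSC
  let w : Fin b → Cn (b + k) := fun i => (bC i : Cn (b + k))
  let v0 : Fin k → Cn (b + k) := fun α => (bS α : Cn (b + k))
  have hLv0 : ∀ α, L (v0 α) = Pi.single α 1 := by
    intro α
    show bS.equivFun (S.projectionOnto C hSC (bS α : Cn (b + k))) = _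
    rw [Submodule.projectionOnto_apply_left]
    funext j
    rw [Module.Basis.equivFun_self, Pi.single_apply]
    simp only [eq_comm]
  have hLker : ∀ d, L d = 0 ↔ d ∈ C := by
    intro d
    have h1 : L d = 0 ↔ S.projectionOnto C hSC d = 0 := by
      show bS.equivFun (S.projectionOnto C hSC d) = 0 ↔ _
      exact LinearEquiv.map_eq_zero_iff _
    rw [h1, ← LinearMap.mem_ker, Submodule.ker_projectionOnto]
  have hLw : ∀ i, L (w i) = 0 := fun i => (hLker _).2 (bC i).2
  have hlin : LinearIndependent ℂ w :=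
    bC.linearIndependent.map' C.subtype (Submodule.ker_subtype C)
  have hspan : ∀ d, L d = 0 → ∃ c : Fin b → ℂ, d = ∑ i, c i • w i := by
    intro d hd
    have h1 := (hLker d).1 hd
    refine ⟨fun i => bC.repr ⟨d, h1⟩ i, ?_⟩
    have h2 := congrArg (C.subtype) (bC.sum_repr ⟨d, h1⟩)
    rw [map_sum] at h2
    simp only [map_smul, Submodule.subtype_apply] at h2
    exact h2.symm
  -- the matrix on `w`
  set M : Cn (b + k) → Matrix (Fin b) (Fin b) ℂ := fun x => MG (LM Φ x)ᵀ w with hM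
  have hMe : ∀ x i j, M x i j = hermi (LM Φ x) (w i) (w j) := by
    intro x i j
    rw [hermi_eq]
    rfl
  have hMs : ∀ i j, ContDiffOn ℝ ∞ (fun x => M x i j) W := by
    intro i j
    simp only [hMe]
    exact smooth_hermi hsm _ _
  have hdets : ContDiffOn ℝ ∞ (fun x => (M x).det) W := contDiffOn_det hMs
  have hadjs : ∀ i j, ContDiffOn ℝ ∞ (fun x => (M x).adjugate i j) W :=
    fun i j => contDiffOn_adjugate hMs i j
  have hopen : IsOpen (W ∩ (fun x => (M x).det) ⁻¹' {z : ℂ | z ≠ 0}) :=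
    hdets.continuousOn.isOpen_inter_preimage hW isOpen_ne
  have hpd : (M p).det ≠ 0 := by
    refine det_ne (hG p hp) hlin fun c hc => ?_
    have h1 : ∑ i, c i • w i ∈ S := (hSp _).1 ((hkerx p hp _).1 hc)
    have h2 : ∑ i, c i • w i ∈ C := Submodule.sum_mem _ fun i _ => C.smul_mem _ (bC i).2
    exact Submodule.disjoint_def.1 hSC.disjoint _ h1 h2
  -- the coefficients
  set cf : Cn (b + k) → Fin k → Fin b → ℂ := fun x α i =>
    (∑ j, hermi (LM Φ x) (v0 α) (w j) * (M x).adjugate j i) * ((M x).det)⁻¹ with hcf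
  have hcfM : ∀ x, (M x).det ≠ 0 → ∀ α j, (cf x α ᵥ* M x) j = hermi (LM Φ x) (v0 α) (w j) := by
    intro x hx α j
    have h1 : cf x α = ((M x).det)⁻¹ •
        ((fun j => hermi (LM Φ x) (v0 α) (w j)) ᵥ* (M x).adjugate) := by
      funext i
      rw [Pi.smul_apply, smul_eq_mul, mul_comm]
      rfl
    rw [h1, Matrix.smul_vecMul, Matrix.vecMul_vecMul, Matrix.adjugate_mul, Pi.smul_apply,
      Matrix.vecMul_smul, Pi.smul_apply, Matrix.vecMul_one, smul_eq_mul, smul_eq_mul,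
      ← mul_assoc, inv_mul_cancel₀ hx, one_mul]
  have hcfs : ∀ α i, ContDiffOn ℝ ∞ (fun x => cf x α i)
      (W ∩ (fun x => (M x).det) ⁻¹' {z : ℂ | z ≠ 0}) := by
    intro α i
    refine ContDiffOn.mul (ContDiffOn.sum fun j _ => ?_) (ContDiffOn.inv ?_ fun x hx => hx.2)
    · exact ((smooth_hermi hsm _ _).mono inter_subset_left).mul
        ((hadjs j i).mono inter_subset_left)
    · exact hdets.mono inter_subset_left
  set v : Fin k → Cn (b + k) → Cn (b + k) := fun α x => v0 α - ∑ i, cf x α i • w i with hv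
  have hLv : ∀ α x, L (v α x) = Pi.single α 1 := by
    intro α x
    simp only [hv, map_sub, map_sum, map_smul, hLw, smul_zero, Finset.sum_const_zero, sub_zero]
    exact hLv0 α
  have hker : ∀ x ∈ W, (M x).det ≠ 0 → ∀ α, (LM Φ x)ᵀ *ᵥ v α x = 0 := by
    intro x hx hd α
    obtain ⟨S', hS', hSx⟩ := (hC x hx).2
    refine ker_mem hlin hd S' hS' (fun e => (hkerx x hx e).trans (hSx e)) fun j => ?_
    have h1 := hcfM x hd α j
    rw [hermi_eq, hM, mg_vec] at h1
    simp only [hv]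
    rw [Matrix.mulVec_sub, dotProduct_sub, h1, sub_self]
  refine ⟨W ∩ (fun x => (M x).det) ⁻¹' {z : ℂ | z ≠ 0}, L, w, v, inter_subset_left, ⟨hp, hpd⟩,
    ?_⟩
  constructor
  · exact hopen
  · exact hΦ.mono inter_subset_left
  · exact fun x hx => (hC x hx.1).1
  · intro α
    exact contDiffOn_const.sub (ContDiffOn.sum fun i _ => (hcfs α i).smul contDiffOn_const)
  · exact fun x _ α => hLv α x
  · intro x hx α j
    exact congrFun (hker x hx.1 hx.2 α) j
  · intro x hx e he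
    have h1 : (LM Φ x)ᵀ *ᵥ (e - ∑ α, L e α • v α x) = 0 := by
      rw [Matrix.mulVec_sub, (hkerx x hx.1 e).2 he, Matrix.mulVec_sum]
      simp only [Matrix.mulVec_smul, hker x hx.1 hx.2, smul_zero, Finset.sum_const_zero, sub_zero]
    have h2 : L (e - ∑ α, L e α • v α x) = 0 := by
      rw [map_sub, map_sum]
      simp only [map_smul, hLv]
      rw [sub_eq_zero]
      funext α
      rw [Finset.sum_apply]
      simp [Pi.single_apply]
    obtain ⟨c, hc⟩ := hspan _ h2
    rw [hc] at h1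
    have h3 : c = 0 := coef_zero hx.2 fun j => by rw [h1, dotProduct_zero]
    rw [h3] at hc
    simp only [Pi.zero_apply, zero_smul, Finset.sum_const_zero] at hc
    exact sub_eq_zero.1 hc
  · exact hlin
  · exact hLw

end Pool.Agent.Helper81.RK
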