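import Pool.Agent.Helper36.RK.GoalsQ

/-!
# Packet OMA: the inverse of `Im H(L x, L y)`
-/

open Complex Metric Set Filter Topology MeasureTheory
open scoped ContDiff ComplexConjugate ComplexOrder Manifold

namespace Pool.Agent.Helper81.RK

open Pool.Agent.Helper95.Lin Pool.Agent.Helper10.SP Pool.Agent.Helper95.RK Pool.Agent.Helper36.RK

/-- The rows of `L` and of the conjugate of `L`. -/
noncomputable def Mr {k : ℕ} (L : Matrix (Fin k) (Fin (2 * k)) ℂ) :
    Matrix (Fin k ⊕ Fin k) (Fin (2 * k)) ℂ := Matrix.fromRows L (cj L)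

/-- The matrix of the form. -/
noncomputable def Jm {k : ℕ} (H : Matrix (Fin k) (Fin k) ℂ) :
    Matrix (Fin k ⊕ Fin k) (Fin k ⊕ Fin k) ℂ := Matrix.fromBlocks 0 H (-H.transpose) 0

/-- The inverse matrix. -/
noncomputable def Ji {k : ℕ} (H : Matrix (Fin k) (Fin k) ℂ) :
    Matrix (Fin k ⊕ Fin k) (Fin k ⊕ Fin k) ℂ :=
  Matrix.fromBlocks 0 (-(H.transpose)⁻¹) H⁻¹ 0

lemma J_mul {k : ℕ} {H : Matrix (Fin k) (Fin k) ℂ} (hH : IsUnit H.det) : Jm H * Ji H = 1 := by
  unfold Jm Ji
  rw [Matrix.fromBlocks_multiply]
  have h2 : IsUnit H.transpose.det := by rwa [Matrix.det_transpose]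
  rw [Matrix.mul_nonsing_inv _ hH, neg_mul_neg, Matrix.mul_nonsing_inv _ h2]
  simp

theorem oma : S_OMA := by
  classical
  intro k L H E hH hL hE
  have hHu : IsUnit H.det := hH.det_pos.ne'.isUnit
  have hHh : ∀ p l, H p l = conj (H l p) := fun p l => (hH.isHermitian.apply p l).symm
  -- the identity `2 i E = Mᵀ J M`
  have key : (2 * I) • toC E = (Mr L).transpose * Jm H * Mr L := by
    have h1 : (Mr L).transpose * Jm H * Mr L =
        L.transpose * H * cj L - (cj L).transpose * H.transpose * L := by
      unfold Mr Jm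
      rw [Matrix.transpose_fromRows, Matrix.fromCols_mul_fromBlocks, Matrix.fromCols_mul_fromRows]
      simp only [Matrix.mul_zero, zero_add, add_zero, Matrix.mul_neg, Matrix.neg_mul]
      rw [sub_eq_add_neg, add_comm]
    rw [h1]
    ext j j'
    rw [Matrix.smul_apply, Matrix.sub_apply, smul_eq_mul]
    have h2 : (L.transpose * H * cj L) j j' = ∑ p, ∑ l, H p l * L p j * conj (L l j') := by
      rw [Matrix.mul_apply, Finset.sum_comm]
      refine Finset.sum_congr rfl fun l _ => ?_
      rw [Matrix.mul_apply, Finset.sum_mul]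
      refine Finset.sum_congr rfl fun p _ => ?_
      simp only [Matrix.transpose_apply, cj, Matrix.map_apply]
      ring
    have h3 : ((cj L).transpose * H.transpose * L) j j' =
        conj (∑ p, ∑ l, H p l * L p j * conj (L l j')) := by
      rw [Matrix.mul_apply, map_sum]
      simp only [map_sum]
      rw [Finset.sum_comm]
      refine Finset.sum_congr rfl fun l _ => ?_
      rw [Matrix.mul_apply, Finset.sum_mul]
      refine Finset.sum_congr rfl fun p _ => ?_
      simp only [Matrix.transpose_apply, cj, Matrix.map_apply, map_mul, Complex.conj_conj]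
      rw [hHh l p]
      ring
    rw [h2, h3]
    have h4 : toC E j j' = (((∑ p, ∑ l, H p l * L p j * conj (L l j')).im : ℝ) : ℂ) := by
      show ((E j j' : ℝ) : ℂ) = _
      rw [hE]
    rw [h4, Complex.sub_conj]
    push_cast
    ring
  -- invertibility
  have hcard : Fintype.card (Fin (2 * k)) = Fintype.card (Fin k ⊕ Fin k) := by
    simp [two_mul]
  let e : Fin (2 * k) ≃ Fin k ⊕ Fin k := Fintype.equivOfCardEq hcard
  have hMinj : ∀ y : Fin (2 * k) → ℂ, (Mr L).mulVec y = 0 → y = 0 := by
    intro y hy
    unfold Mr at hy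
    rw [Matrix.fromRows_mulVec] at hy
    have hy1 : L.mulVec y = 0 := by
      funext p
      exact congrFun hy (Sum.inl p)
    have hy2 : (cj L).mulVec y = 0 := by
      funext p
      exact congrFun hy (Sum.inr p)
    have hy3 : ∀ p, ∑ j, L p j * conj (y j) = 0 := by
      intro p
      have h := congrArg conj (congrFun hy2 p)
      simp only [Matrix.mulVec, dotProduct, cj, Matrix.map_apply, map_sum, map_mul,
        Complex.conj_conj, Pi.zero_apply, map_zero] at h
      exact h
    have hy4 : ∀ p, ∑ j, L p j * y j = 0 := fun p => congrFun hy1 p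
    have hre : (fun j => (y j).re) = 0 := by
      apply hL
      funext p
      show ∑ j, L p j * (((y j).re : ℝ) : ℂ) = 0
      have h5 : ∑ j, L p j * (((y j).re : ℝ) : ℂ) =
          (1 / 2) * ((∑ j, L p j * y j) + ∑ j, L p j * conj (y j)) := by
        rw [← Finset.sum_add_distrib, Finset.mul_sum]
        refine Finset.sum_congr rfl fun j _ => ?_
        rw [← mul_add, Complex.add_conj]
        push_cast
        ring
      rw [h5, hy3, hy4]
      simp
    have him : (fun j => (y j).im) = 0 := by
      apply hL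
      funext p
      show ∑ j, L p j * (((y j).im : ℝ) : ℂ) = 0
      have h5 : ∑ j, L p j * (((y j).im : ℝ) : ℂ) =
          (1 / (2 * I)) * ((∑ j, L p j * y j) - ∑ j, L p j * conj (y j)) := by
        rw [← Finset.sum_sub_distrib, Finset.mul_sum]
        refine Finset.sum_congr rfl fun j _ => ?_
        rw [← mul_sub, Complex.sub_conj]
        push_cast
        have : (2 * I) ≠ 0 := by simp
        field_simp
      rw [h5, hy3, hy4]
      simp
    funext j
    exact Complex.ext (congrFun hre j) (congrFun him j)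
  set M' : Matrix (Fin (2 * k)) (Fin (2 * k)) ℂ := (Mr L).submatrix e id with hM'
  set J' : Matrix (Fin (2 * k)) (Fin (2 * k)) ℂ := (Jm H).submatrix e e with hJ'
  set K' : Matrix (Fin (2 * k)) (Fin (2 * k)) ℂ := (Ji H).submatrix e e with hK'
  have hJK : J' * K' = 1 := by
    rw [hJ', hK', Matrix.submatrix_mul_equiv, J_mul hHu, Matrix.submatrix_one_equiv]
  have hMu : IsUnit M'.det := by
    rw [isUnit_iff_ne_zero]
    intro h0
    obtain ⟨y, hy, hy0⟩ := Matrix.exists_mulVec_eq_zero_iff.2 h0
    apply hy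
    apply hMinj
    funext i
    have h := congrFun hy0 (e.symm i)
    simp only [hM', Matrix.mulVec, dotProduct, Matrix.submatrix_apply, Equiv.apply_symm_apply,
      id_eq, Pi.zero_apply] at h
    exact h
  have hMtu : IsUnit M'.transpose.det := by rwa [Matrix.det_transpose]
  have key' : (2 * I) • toC E = M'.transpose * J' * M' := by
    rw [key, hM', hJ', Matrix.transpose_submatrix, Matrix.submatrix_mul_equiv,
      Matrix.submatrix_mul_equiv]
    rfl
  have h2I : (2 * I) ≠ 0 := by simp
  have hinv : toC E * (M'⁻¹ * ((2 * I) • K') * M'.transpose⁻¹) = 1 := by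
    have h1 : toC E = (2 * I)⁻¹ • (M'.transpose * J' * M') := by
      rw [← key', smul_smul, inv_mul_cancel₀ h2I, one_smul]
    rw [h1]
    simp only [Matrix.mul_smul, Matrix.smul_mul, smul_smul]
    rw [mul_inv_cancel₀ h2I, one_smul]
    calc M'.transpose * J' * M' * (M'⁻¹ * K' * M'.transpose⁻¹)
        = M'.transpose * (J' * (M' * M'⁻¹) * K') * M'.transpose⁻¹ := by
          simp only [Matrix.mul_assoc]
      _ = 1 := by
          rw [Matrix.mul_nonsing_inv _ hMu, Matrix.mul_one, hJK, Matrix.mul_one,
            Matrix.mul_nonsing_inv _ hMtu]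
  have hEc : (toC E)⁻¹ = M'⁻¹ * ((2 * I) • K') * M'.transpose⁻¹ := Matrix.inv_eq_right_inv hinv
  have hdetc : (toC E).det ≠ 0 := by
    intro h0
    have h := congrArg Matrix.det hinv
    rw [Matrix.det_mul, h0, zero_mul, Matrix.det_one] at h
    exact zero_ne_one h
  have hdetE : E.det ≠ 0 := by
    intro h0
    apply hdetc
    have h : (toC E).det = ((E.det : ℝ) : ℂ) := by
      unfold toC
      exact (RingHom.map_det Complex.ofRealHom E).symm
    rw [h, h0]
    simp
  have hEinv : toC E⁻¹ = (toC E)⁻¹ := by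
    symm
    apply Matrix.inv_eq_right_inv
    have h : toC E * toC E⁻¹ = toC (E * E⁻¹) := by
      unfold toC
      exact (Matrix.map_mul (f := Complex.ofRealHom)).symm
    rw [h, Matrix.mul_nonsing_inv _ (isUnit_iff_ne_zero.2 hdetE)]
    unfold toC
    exact Matrix.map_one _ Complex.ofReal_zero Complex.ofReal_one
  have hfin' : M' * toC E⁻¹ * M'.transpose = (2 * I) • K' := by
    rw [hEinv, hEc]
    calc M' * (M'⁻¹ * ((2 * I) • K') * M'.transpose⁻¹) * M'.transpose
        = (M' * M'⁻¹) * ((2 * I) • K') * (M'.transpose⁻¹ * M'.transpose) := by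
          simp only [Matrix.mul_assoc]
      _ = (2 * I) • K' := by
          rw [Matrix.mul_nonsing_inv _ hMu, Matrix.nonsing_inv_mul _ hMtu, Matrix.one_mul,
            Matrix.mul_one]
  have hfin : Mr L * toC E⁻¹ * (Mr L).transpose = (2 * I) • Ji H := by
    ext i j
    have h := congrFun (congrFun hfin' (e.symm i)) (e.symm j)
    have h1 : (M' * toC E⁻¹ * M'.transpose) (e.symm i) (e.symm j) =
        (Mr L * toC E⁻¹ * (Mr L).transpose) i j := by
      simp only [Matrix.mul_apply, hM', Matrix.transpose_apply, Matrix.submatrix_apply,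
        Equiv.apply_symm_apply, id_eq]
    rw [← h1, h]
    simp only [hK', Matrix.smul_apply, Matrix.submatrix_apply, Equiv.apply_symm_apply]
  have hblk : Mr L * toC E⁻¹ * (Mr L).transpose =
      Matrix.fromBlocks (L * toC E⁻¹ * L.transpose) (L * toC E⁻¹ * (cj L).transpose)
        (cj L * toC E⁻¹ * L.transpose) (cj L * toC E⁻¹ * (cj L).transpose) := by
    unfold Mr
    rw [Matrix.fromRows_mul, Matrix.transpose_fromRows, Matrix.fromRows_mul_fromCols]
  rw [hblk] at hfin
  unfold Ji at hfin
  rw [Matrix.fromBlocks_smul, Matrix.fromBlocks_inj] at hfin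
  obtain ⟨f1, -, f3, -⟩ := hfin
  have hhi : hiM L E⁻¹ = H⁻¹ := by
    unfold hiM
    rw [f3, smul_smul, one_div, inv_mul_cancel₀ h2I, one_smul]
  refine ⟨hdetE, ⟨?_, ?_, ?_⟩, hhi⟩
  · have hEt : E.transpose = -E := by
      ext j j'
      rw [Matrix.transpose_apply, Matrix.neg_apply, hE, hE]
      have h : (∑ p, ∑ l, H p l * L p j' * conj (L l j)) =
          conj (∑ p, ∑ l, H p l * L p j * conj (L l j')) := by
        rw [map_sum]
        simp only [map_sum]
        rw [Finset.sum_comm]
        refine Finset.sum_congr rfl fun l _ => Finset.sum_congr rfl fun p _ => ?_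
        simp only [map_mul, Complex.conj_conj]
        rw [hHh p l]
        ring
      rw [h, Complex.conj_im]
    rw [Matrix.transpose_nonsing_inv, hEt]
    apply Matrix.inv_eq_right_inv
    rw [neg_mul_neg, Matrix.mul_nonsing_inv _ (isUnit_iff_ne_zero.2 hdetE)]
  · rw [f1, smul_zero]
  · rw [hhi]
    exact hH.inv

end Pool.Agent.Helper81.RK
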